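import Pool.Agent.H397R2.PP.B0
import Pool.Agent.H397R2.PP.B1
import Pool.Agent.H397R2.PP.B2
import Pool.Agent.H397R2.PP.B3

set_option autoImplicit false

/-! Ramanujan's function at powers of two. -/

namespace Pool.Agent.H209.ES

open PowerSeries MatrixGroups Pool.Agent.H397R2.PP

/-- Ramanujan's function -/
noncomputable def tau (n : ℕ) : ℤ := coeff n Dz

theorem isMF_zero (P : ℤ⟦X⟧) (h : IsMF 0 P) : P = C (coeff 0 P) := by
  obtain ⟨f, hf⟩ := h
  let f0 : ModularForm 𝒮ℒ 0 := ModularForm.mcast (by norm_num) f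
  have hf0 : UpperHalfPlane.qExpansion 1 f0 = P.map (Int.castRingHom ℂ) := by
    rw [← hf]; rfl
  obtain ⟨c, hc⟩ := ModularFormClass.levelOne_weight_zero_const f0
  have hq : UpperHalfPlane.qExpansion 1 f0 = PowerSeries.C c := by
    have h1 : (f0 : UpperHalfPlane → ℂ) = c • (1 : ModularForm 𝒮ℒ 0) := by
      rw [hc]; ext z; simp
    rw [h1, ModularForm.qExpansion_smul one_pos one_mem_strictPeriods_SL,
      ModularForm.qExpansion_one, PowerSeries.smul_eq_C_mul, mul_one]
  ext n
  rcases Nat.eq_zero_or_pos n with rfl | hn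
  · simp
  · have h1 := congrArg (PowerSeries.coeff n) (hf0.symm.trans hq)
    rw [PowerSeries.coeff_map, PowerSeries.coeff_C, if_neg hn.ne'] at h1
    rw [PowerSeries.coeff_C, if_neg hn.ne']
    simpa using h1

theorem coeff_zero_Dz : coeff 0 Dz = 0 := by
  rw [Dz, PowerSeries.coeff_zero_X_mul]

theorem pent_zero : constantCoeff (pentagonalSeries ℤ) = 1 := by
  have h0 : (0 : ℕ) = pentagonal 0 := by decide
  rw [← PowerSeries.coeff_zero_eq_constantCoeff_apply, h0,
    PowerSeries.coeff_pentagonalSeries_pentagonal]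
  simp

theorem pent_one : coeff 1 (pentagonalSeries ℤ) = -1 := by
  have h0 : (1 : ℕ) = pentagonal 1 := by decide
  rw [h0, PowerSeries.coeff_pentagonalSeries_pentagonal]
  simp

theorem tau_zero : tau 0 = 0 := coeff_zero_Dz

theorem tau_one : tau 1 = 1 := by
  rw [tau, Dz, show (1 : ℕ) = 0 + 1 from rfl, PowerSeries.coeff_succ_X_mul,
    PowerSeries.coeff_zero_eq_constantCoeff_apply, B1.pent_const]

theorem tau_two : tau 2 = -24 := by
  rw [tau, Dz, show (2 : ℕ) = 1 + 1 from rfl, PowerSeries.coeff_succ_X_mul,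
    PowerSeries.coeff_one_pow, pent_zero, pent_one]
  norm_num

theorem T2 : TpZ 12 2 Dz = C (-24) * Dz := by
  have h1 : IsMF 1 Dz := by
    have := isMF_pow qExpansion_discriminant 1
    rwa [pow_one] at this
  have h2 : IsMF 1 (TpZ (12 * 1) 2 Dz) := IsMF.hecke 1 le_rfl Dz h1 2 Nat.prime_two
  rw [mul_one] at h2
  obtain ⟨Q, hQ, hP⟩ := B1.step qExpansion_discriminant 0 _ h2
  have h3 : coeff 0 (TpZ 12 2 Dz) = 0 := by
    rw [TpZ, coeff_mk]
    simp [coeff_zero_Dz, -PowerSeries.coeff_zero_eq_constantCoeff]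
  rw [h3, map_zero, zero_mul, zero_add, isMF_zero Q hQ] at hP
  have h4 : coeff 1 (TpZ 12 2 Dz) = tau 2 := by
    rw [TpZ, coeff_mk]
    simp [tau]
  have h5 : coeff 1 (Dz * C (coeff 0 Q)) = coeff 0 Q := by
    rw [mul_comm, PowerSeries.coeff_C_mul]
    have := tau_one
    rw [tau] at this
    rw [this, mul_one]
  rw [hP, h5, tau_two] at h4
  rw [hP, h4, mul_comm]

theorem tau_double (n : ℕ) : tau (2 * n) + (if 2 ∣ n then 2048 * tau (n / 2) else 0) = -24 * tau n := by
  have h := congrArg (coeff n) T2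
  rw [TpZ, coeff_mk, PowerSeries.coeff_C_mul] at h
  simpa [tau] using h

theorem tau_dvd (k : ℕ) : ∀ u : ℕ, (8 : ℤ) ^ k ∣ tau (2 ^ k * u) := by
  induction k using Nat.strong_induction_on with
  | _ k ih =>
    intro u
    rcases k with _ | _ | k
    · simp
    · have h := tau_double u
      rw [zero_add, pow_one, pow_one]
      split_ifs at h with h2
      · exact ⟨-3 * tau u - 256 * tau (u / 2), by linear_combination h⟩
      · exact ⟨-3 * tau u, by linear_combination h⟩
    · obtain ⟨a, ha⟩ := ih k (by omega) u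
      obtain ⟨b, hb⟩ := ih (k + 1) (by omega) u
      have h := tau_double (2 ^ (k + 1) * u)
      rw [if_pos (Dvd.intro (2 ^ k * u) (by ring)),
        show 2 ^ (k + 1) * u / 2 = 2 ^ k * u by
          rw [pow_succ, show 2 ^ k * 2 * u = 2 ^ k * u * 2 by ring, Nat.mul_div_cancel _ two_pos],
        ha, hb, show 2 * (2 ^ (k + 1) * u) = 2 ^ (k + 1 + 1) * u by ring] at h
      refine ⟨-3 * b - 32 * a, ?_⟩
      rw [pow_succ, pow_succ] at *
      linear_combination h

theorem tau_pow_two (k : ℕ) : ∃ s : ℤ, Odd s ∧ tau (2 ^ k) = 8 ^ k * s := by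
  induction k using Nat.strong_induction_on with
  | _ k ih =>
    rcases k with _ | _ | k
    · exact ⟨1, odd_one, by simp [tau_one]⟩
    · exact ⟨-3, by decide, by norm_num [tau_two]⟩
    · obtain ⟨a, _, ha⟩ := ih k (by omega)
      obtain ⟨b, ho, hb⟩ := ih (k + 1) (by omega)
      have h := tau_double (2 ^ (k + 1))
      rw [if_pos (Dvd.intro (2 ^ k) (by ring)),
        show 2 ^ (k + 1) / 2 = 2 ^ k by rw [pow_succ, Nat.mul_div_cancel _ two_pos],
        ha, hb, show 2 * 2 ^ (k + 1) = 2 ^ (k + 1 + 1) by ring] at h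
      refine ⟨-3 * b - 32 * a, ?_, ?_⟩
      · obtain ⟨c, hc⟩ := ho
        exact ⟨-3 * c - 16 * a - 2, by rw [hc]; ring⟩
      · rw [pow_succ, pow_succ] at *
        linear_combination h

end Pool.Agent.H209.ES
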