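import Pool.Agent.H209.ES.Hecke
import Pool.Agent.V11330.ET.Jacobi

set_option autoImplicit false

/-! Jacobi's identity for the cube of Euler's product, over the integers. -/

namespace Pool.Agent.H209.ES

open PowerSeries Pool.Agent.H397R2.PP Pool.Agent.V11330.ET Filter Topology

/-- uniqueness of coefficients -/
theorem coeff_unique (c : ℕ → ℝ)
    (h : ∀ q : ℝ, 0 < q → q < 1 → HasSum (fun n => c n * q ^ n) 0) (n : ℕ) : c n = 0 := by
  induction n using Nat.strong_induction_on with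
  | _ n ih =>
  have hs : Summable (fun k => |c (k + (n + 1))| * (1 / 2 : ℝ) ^ k) := by
    have h1 := (h (1 / 2) (by norm_num) (by norm_num)).summable.abs
    have h2 := ((summable_nat_add_iff (n + 1)).2 h1).mul_right ((2 : ℝ) ^ (n + 1))
    refine h2.congr fun k => ?_
    rw [abs_mul, abs_of_pos (by positivity : (0 : ℝ) < (1 / 2) ^ (k + (n + 1))), pow_add, mul_assoc,
      mul_assoc, ← mul_pow]
    norm_num
  set S : ℝ := ∑' k, |c (k + (n + 1))| * (1 / 2 : ℝ) ^ k with hS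
  have hS0 : 0 ≤ S := tsum_nonneg fun k => by positivity
  have hb : ∀ q : ℝ, 0 < q → q ≤ 1 / 2 → |c n| ≤ q * S := by
    intro q hq0 hq1
    have h1 := (hasSum_nat_add_iff' (n + 1)).2 (h q hq0 (by linarith))
    rw [Finset.sum_range_succ, Finset.sum_eq_zero (fun i hi => by
      rw [ih i (Finset.mem_range.1 hi), zero_mul]), zero_add, zero_sub] at h1
    have hle : ∀ k, |c (k + (n + 1)) * q ^ (k + (n + 1))| ≤
        q ^ (n + 1) * (|c (k + (n + 1))| * (1 / 2 : ℝ) ^ k) := by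
      intro k
      rw [abs_mul, abs_of_pos (by positivity : (0 : ℝ) < q ^ (k + (n + 1))), pow_add]
      have h3 : q ^ k ≤ (1 / 2 : ℝ) ^ k := pow_le_pow_left₀ hq0.le hq1 k
      have h4 : 0 ≤ |c (k + (n + 1))| * q ^ (n + 1) := by positivity
      nlinarith [mul_le_mul_of_nonneg_left h3 h4]
    have hs2 : Summable (fun k => q ^ (n + 1) * (|c (k + (n + 1))| * (1 / 2 : ℝ) ^ k)) :=
      hs.mul_left _
    have hs3 : Summable (fun k => |c (k + (n + 1)) * q ^ (k + (n + 1))|) :=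
      Summable.of_nonneg_of_le (fun k => abs_nonneg _) hle hs2
    have h5 : |c n * q ^ n| ≤ q ^ (n + 1) * S := by
      have h6 : c n * q ^ n = -∑' k, c (k + (n + 1)) * q ^ (k + (n + 1)) := by
        rw [h1.tsum_eq, neg_neg]
      rw [h6, abs_neg]
      have h7 : |∑' k, c (k + (n + 1)) * q ^ (k + (n + 1))| ≤
          ∑' k, |c (k + (n + 1)) * q ^ (k + (n + 1))| := by
        have := norm_tsum_le_tsum_norm (f := fun k => c (k + (n + 1)) * q ^ (k + (n + 1)))
          (by simpa [Real.norm_eq_abs] using hs3)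
        simpa [Real.norm_eq_abs] using this
      refine h7.trans ?_
      rw [hS, ← tsum_mul_left]
      exact hs3.tsum_le_tsum hle hs2
    rw [abs_mul, abs_of_pos (by positivity : (0 : ℝ) < q ^ n), pow_succ] at h5
    have h8 : 0 < q ^ n := by positivity
    have h9 : q ^ n * |c n| ≤ q ^ n * (q * S) := by linarith
    exact le_of_mul_le_mul_left h9 h8
  by_contra hne
  have hpos : 0 < |c n| := abs_pos.2 hne
  have h1 := hb (min (1 / 2) (|c n| / (2 * (S + 1)))) (by positivity) (min_le_left _ _)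
  have h2 : min (1 / 2) (|c n| / (2 * (S + 1))) * S ≤ |c n| / (2 * (S + 1)) * S :=
    mul_le_mul_of_nonneg_right (min_le_right _ _) hS0
  have h3 : |c n| / (2 * (S + 1)) * S ≤ |c n| / 2 := by
    rw [div_mul_eq_mul_div, div_le_div_iff₀ (by positivity) (by positivity)]
    nlinarith
  linarith

/-- `v` with the sign which makes it `1` modulo `4` -/
def w (v : ℤ) : ℤ := if v % 4 = 1 then v else -v

/-- square roots of `8 j + 1` -/
noncomputable def roots (j : ℕ) : Finset ℤ :=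
  (Finset.Icc (-(8 * (j : ℤ) + 1)) (8 * (j : ℤ) + 1)).filter (fun v => v ^ 2 = 8 * (j : ℤ) + 1)

theorem mem_roots (j : ℕ) (v : ℤ) : v ∈ roots j ↔ v ^ 2 = 8 * (j : ℤ) + 1 := by
  unfold roots
  rw [Finset.mem_filter, Finset.mem_Icc]
  constructor
  · exact fun h => h.2
  · intro h
    refine ⟨⟨?_, ?_⟩, h⟩
    · nlinarith [sq_nonneg (v + 1), sq_nonneg v]
    · nlinarith [sq_nonneg (v - 1), sq_nonneg v]

/-- the coefficients of `2 ∑ (-1)^k (2k+1) X^{k(k+1)/2}` -/
noncomputable def Jc (j : ℕ) : ℤ := ∑ v ∈ roots j, w v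

theorem w_odd (k : ℕ) : w (2 * (k : ℤ) + 1) = (-1) ^ k * (2 * (k : ℤ) + 1) := by
  unfold w
  rcases Nat.even_or_odd k with h | h
  · rw [h.neg_one_pow, one_mul]
    obtain ⟨a, rfl⟩ := h
    rw [if_pos (by push_cast; omega)]
  · rw [h.neg_one_pow]
    obtain ⟨a, rfl⟩ := h
    rw [if_neg (by push_cast; omega)]
    ring

theorem w_neg_odd (k : ℕ) : w (-(2 * (k : ℤ) + 1)) = (-1) ^ k * (2 * (k : ℤ) + 1) := by
  unfold w
  rcases Nat.even_or_odd k with h | h
  · rw [h.neg_one_pow, one_mul]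
    obtain ⟨a, rfl⟩ := h
    rw [if_neg (by push_cast; omega)]
    ring
  · rw [h.neg_one_pow]
    obtain ⟨a, rfl⟩ := h
    rw [if_pos (by push_cast; omega)]
    ring

theorem Jc_tri (k : ℕ) : Jc (tri k) = 2 * ((-1) ^ k * (2 * (k : ℤ) + 1)) := by
  have h : roots (tri k) = {2 * (k : ℤ) + 1, -(2 * (k : ℤ) + 1)} := by
    ext v
    rw [mem_roots, Finset.mem_insert, Finset.mem_singleton, ← sq_eq_sq_iff_eq_or_eq_neg]
    have h1 : (8 * (tri k : ℤ) + 1) = (2 * (k : ℤ) + 1) ^ 2 := by exact_mod_cast tri_eq k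
    rw [h1]
  unfold Jc
  rw [h, Finset.sum_pair (by omega), w_odd, w_neg_odd]
  ring

theorem Jc_not {j : ℕ} (hj : j ∉ Set.range tri) : Jc j = 0 := by
  unfold Jc
  have h : roots j = ∅ := by
    rw [Finset.eq_empty_iff_forall_notMem]
    intro v hv
    rw [mem_roots] at hv
    apply hj
    have hodd : v % 2 = 1 := by
      rcases Int.emod_two_eq_zero_or_one v with h | h
      · exfalso
        obtain ⟨a, rfl⟩ : (2 : ℤ) ∣ v := Int.dvd_of_emod_eq_zero h
        ring_nf at hv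
        omega
      · exact h
    have hn : v.natAbs % 2 = 1 := by omega
    refine ⟨v.natAbs / 2, ?_⟩
    have h1 := tri_eq (v.natAbs / 2)
    have h2 : 2 * (v.natAbs / 2) + 1 = v.natAbs := by omega
    rw [h2] at h1
    have h3 : ((v.natAbs ^ 2 : ℕ) : ℤ) = v ^ 2 := by push_cast; exact sq_abs v
    have h4 : ((8 * tri (v.natAbs / 2) + 1 : ℕ) : ℤ) = 8 * (j : ℤ) + 1 := by
      rw [h1, h3, hv]
    push_cast at h4
    omega
  rw [h, Finset.sum_empty]

theorem tri_inj : Function.Injective tri := by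
  refine (strictMono_nat_of_lt_succ fun n => ?_).injective
  show tri n < tri n + (n + 1)
  omega

theorem hasSum_Jc {q : ℝ} (h0 : 0 < q) (h1 : q < 1) :
    HasSum (fun j => (Jc j : ℝ) * q ^ j) (2 * Lq q ^ 3) := by
  rw [← tri_inj.hasSum_iff]
  · refine ((jacobi h0 h1).mul_left 2).congr_fun ?_
    intro k
    simp only [Function.comp, Tq]
    rw [Jc_tri]
    push_cast
    ring
  · intro j hj
    rw [Jc_not hj]
    simp

theorem hasSum_pent {q : ℝ} (h0 : 0 < q) (h1 : q < 1) :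
    HasSum (fun j => ((coeff j (pentagonalSeries ℤ ^ 3) : ℤ) : ℝ) * q ^ j) (Lq q ^ 3) := by
  have hq : ‖(q : ℂ)‖ < 1 := by
    rw [Complex.norm_real, Real.norm_of_nonneg h0.le]; exact h1
  have hE := ((B0.Ev.pent hq).pow 3).2
  have hL : (∏' n, (1 - (q : ℂ) ^ (n + 1))) = ((Lq q : ℝ) : ℂ) := by
    have t1 := (ModularForm.multipliable_one_sub_pow hq).hasProd.tendsto_prod_nat
    have t2 : Tendsto (fun N => ((Pq q N : ℝ) : ℂ)) atTop (𝓝 ((Lq q : ℝ) : ℂ)) :=
      (Complex.continuous_ofReal.tendsto _).comp (tendsto_Pq h0 h1)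
    refine tendsto_nhds_unique t1 (t2.congr fun N => ?_)
    unfold Pq
    push_cast
    rfl
  rw [hL] at hE
  rw [← Complex.hasSum_ofReal]
  push_cast
  refine hE.congr_fun ?_
  intro j
  rw [← B0.pent_map ℂ, ← map_pow, coeff_map]
  simp

theorem Jc_eq (j : ℕ) : Jc j = 2 * coeff j (pentagonalSeries ℤ ^ 3) := by
  have h := coeff_unique (fun j => (Jc j : ℝ) - 2 * ((coeff j (pentagonalSeries ℤ ^ 3) : ℤ) : ℝ))
    (fun q h0 h1 => by
      have h2 := (hasSum_Jc h0 h1).sub ((hasSum_pent h0 h1).mul_left 2)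
      rw [sub_self] at h2
      refine h2.congr_fun ?_
      intro n
      ring) j
  have h3 : (Jc j : ℝ) = ((2 * coeff j (pentagonalSeries ℤ ^ 3) : ℤ) : ℝ) := by
    push_cast
    linarith
  exact_mod_cast h3

theorem coeff_Jc (n : ℕ) : coeff n ((mk Jc) ^ 8) = 256 * tau (n + 1) := by
  have h : (mk Jc : ℤ⟦X⟧) = C 2 * pentagonalSeries ℤ ^ 3 := by
    ext j
    rw [coeff_mk, coeff_C_mul, Jc_eq]
  rw [h, mul_pow, ← map_pow, coeff_C_mul, ← pow_mul, tau, Dz, coeff_succ_X_mul]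
  norm_num

end Pool.Agent.H209.ES
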