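import Mathlib

set_option autoImplicit false

/-! The bound of Erdős for the problem of Littlewood and Offord. -/

namespace Pool.Agent.H209.ES.LO

open Finset
open scoped Classical

theorem lo_real (R : Finset ℕ) (a : ℕ → ℝ) (hR : ∀ n ∈ R, a n ≠ 0) (x : ℝ)
    (U : Finset (Finset ℕ)) (hUR : ∀ H ∈ U, H ⊆ R) (hU : ∀ H ∈ U, ∑ n ∈ H, a n = x) :
    U.card ≤ R.card.choose (R.card / 2) := by
  let A : Finset ℕ → Finset R := fun H => univ.filter (fun i : R => ((i : ℕ) ∈ H ↔ 0 < a i))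
  have hs0 : ∀ H, H ⊆ R → ∑ i : R, (if (i : ℕ) ∈ H then a i else 0) = ∑ n ∈ H, a n := by
    intro H hH
    rw [Finset.sum_coe_sort R (fun n => if n ∈ H then a n else 0), ← Finset.sum_filter]
    congr 1
    ext n
    rw [Finset.mem_filter]
    exact ⟨fun h => h.2, fun h => ⟨hH h, h⟩⟩
  have hsum : ∀ H, H ⊆ R → ∑ i ∈ A H, |a i| = ∑ n ∈ H, a n +
      ∑ i : R, (if a i < 0 then |a i| else 0) := by
    intro H hH
    rw [← hs0 H hH, Finset.sum_filter, ← Finset.sum_add_distrib]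
    refine Finset.sum_congr rfl (fun i _ => ?_)
    rcases lt_or_gt_of_ne (hR i i.2) with h | h
    · have h' : ¬ 0 < a i := not_lt.2 h.le
      by_cases hu : (i : ℕ) ∈ H
      · simp [hu, h', h, abs_of_neg h]
      · simp [hu, h', h, abs_of_neg h]
    · have h' : ¬ a i < 0 := not_lt.2 h.le
      by_cases hu : (i : ℕ) ∈ H
      · simp [hu, h', h, abs_of_pos h]
      · simp [hu, h', h]
  have hinj : Set.InjOn A (U : Set (Finset ℕ)) := by
    intro H hH H' hH' hHH
    have key : ∀ n ∈ R, (n ∈ H ↔ n ∈ H') := by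
      intro n hn
      have h1 : (⟨n, hn⟩ : R) ∈ A H ↔ (⟨n, hn⟩ : R) ∈ A H' := by rw [hHH]
      simp only [A, Finset.mem_filter, Finset.mem_univ, true_and] at h1
      tauto
    ext n
    constructor
    · intro h
      exact (key n (hUR H hH h)).1 h
    · intro h
      exact (key n (hUR H' hH' h)).2 h
  rw [← Finset.card_image_of_injOn hinj]
  have hsp : IsAntichain (· ⊆ ·) ((U.image A : Finset (Finset R)) : Set (Finset R)) := by
    intro X hX Y hY hXY hsub
    simp only [Finset.coe_image, Set.mem_image, Finset.mem_coe] at hX hY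
    obtain ⟨u, hu, rfl⟩ := hX
    obtain ⟨v, hv, rfl⟩ := hY
    have hlt : ∑ i ∈ A u, |a i| < ∑ i ∈ A v, |a i| := by
      have hss : A u ⊂ A v := Finset.ssubset_iff_subset_ne.2 ⟨hsub, hXY⟩
      obtain ⟨j, hj1, hj2⟩ := Finset.exists_of_ssubset hss
      exact Finset.sum_lt_sum_of_subset hsub hj1 hj2 (abs_pos.2 (hR j j.2)) (fun i _ _ => abs_nonneg _)
    rw [hsum u (hUR u hu), hsum v (hUR v hv), hU u hu, hU v hv] at hlt
    exact lt_irrefl _ hlt
  have := hsp.sperner
  rwa [Fintype.card_coe] at this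

/-- the count for subsets of a larger set -/
theorem count (V R : Finset ℕ) (hRV : R ⊆ V) (a : ℕ → ℝ) (hR : ∀ n ∈ R, a n ≠ 0)
    (T : Finset (Finset ℕ)) (hTV : ∀ F ∈ T, F ⊆ V) (hT : ∀ F ∈ T, ∑ n ∈ F, a n = 0) :
    T.card ≤ R.card.choose (R.card / 2) * 2 ^ (V.card - R.card) := by
  have h1 := Finset.card_le_mul_card_image (f := fun F : Finset ℕ => F \ R) T
    (R.card.choose (R.card / 2)) (by
      intro G hG
      have hinj : Set.InjOn (fun F : Finset ℕ => F ∩ R) ((T.filter (fun F => F \ R = G) :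
          Finset (Finset ℕ)) : Set (Finset ℕ)) := by
        intro F hF F' hF' h
        simp only [Finset.coe_filter, Set.mem_ofPred_eq] at hF hF'
        have h2 : F \ R ∪ F ∩ R = F' \ R ∪ F' ∩ R := by
          have h3 : F ∩ R = F' ∩ R := h
          rw [hF.2, hF'.2, h3]
        rwa [Finset.sdiff_union_inter, Finset.sdiff_union_inter] at h2
      rw [← Finset.card_image_of_injOn hinj]
      refine lo_real R a hR (-∑ n ∈ G, a n) _ ?_ ?_
      · intro H hH
        obtain ⟨F, hF, rfl⟩ := Finset.mem_image.1 hH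
        exact Finset.inter_subset_right
      · intro H hH
        obtain ⟨F, hF, rfl⟩ := Finset.mem_image.1 hH
        rw [Finset.mem_filter] at hF
        have h4 : ∑ n ∈ F \ R, a n + ∑ n ∈ F ∩ R, a n = ∑ n ∈ F, a n := by
          rw [← Finset.sum_union (Finset.disjoint_sdiff_inter F R), Finset.sdiff_union_inter]
        rw [hT F hF.1, hF.2] at h4
        linarith)
  refine h1.trans (Nat.mul_le_mul_left _ ?_)
  have h2 : T.image (fun F : Finset ℕ => F \ R) ⊆ (V \ R).powerset := by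
    intro G hG
    obtain ⟨F, hF, rfl⟩ := Finset.mem_image.1 hG
    rw [Finset.mem_powerset]
    exact Finset.sdiff_subset_sdiff (hTV F hF) (le_refl R)
  refine (Finset.card_le_card h2).trans ?_
  rw [Finset.card_powerset, Finset.card_sdiff_of_subset hRV]

theorem central (j : ℕ) : (Nat.centralBinom j) ^ 2 * (3 * j + 1) ≤ 16 ^ j := by
  induction j with
  | zero => simp
  | succ j ih =>
    have h := Nat.succ_mul_centralBinom_succ j
    have h1 : ((j + 1) * Nat.centralBinom (j + 1)) ^ 2 * (3 * j + 4) ≤ (j + 1) ^ 2 * 16 ^ (j + 1) := by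
      rw [h]
      calc (2 * (2 * j + 1) * Nat.centralBinom j) ^ 2 * (3 * j + 4)
          = (Nat.centralBinom j) ^ 2 * (4 * ((2 * j + 1) ^ 2 * (3 * j + 4))) := by ring
        _ ≤ (Nat.centralBinom j) ^ 2 * (4 * (4 * (j + 1) ^ 2 * (3 * j + 1))) := by
            refine Nat.mul_le_mul_left _ (Nat.mul_le_mul_left _ ?_)
            nlinarith
        _ = 16 * (j + 1) ^ 2 * ((Nat.centralBinom j) ^ 2 * (3 * j + 1)) := by ring
        _ ≤ 16 * (j + 1) ^ 2 * 16 ^ j := Nat.mul_le_mul_left _ ih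
        _ = (j + 1) ^ 2 * 16 ^ (j + 1) := by ring
    have h2 : (j + 1) ^ 2 * ((Nat.centralBinom (j + 1)) ^ 2 * (3 * (j + 1) + 1)) ≤
        (j + 1) ^ 2 * 16 ^ (j + 1) := by
      calc _ = ((j + 1) * Nat.centralBinom (j + 1)) ^ 2 * (3 * j + 4) := by ring
        _ ≤ _ := h1
    exact Nat.le_of_mul_le_mul_left h2 (by positivity)

/-- the final count -/
theorem final (m j : ℕ) (hj : 16 * j ^ 2 ≤ m) (a : ℕ → ℝ)
    (ha : ∀ b : ℕ, (2 * b + 1) ^ 2 ≤ m → a ((2 * b + 1) ^ 2) ≠ 0)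
    (T : Finset (Finset ℕ)) (hTV : ∀ F ∈ T, F ⊆ Finset.Icc 1 m) (hT : ∀ F ∈ T, ∑ n ∈ F, a n = 0) :
    T.card ^ 2 * (3 * j + 1) ≤ 4 ^ m := by
  set R : Finset ℕ := (Finset.range (2 * j)).image (fun b => (2 * b + 1) ^ 2) with hRdef
  have hb : ∀ b < 2 * j, (2 * b + 1) ^ 2 ≤ m := by
    intro b hb
    have h1 : 2 * b + 1 ≤ 4 * j := by omega
    calc (2 * b + 1) ^ 2 ≤ (4 * j) ^ 2 := Nat.pow_le_pow_left h1 2
      _ = 16 * j ^ 2 := by ring
      _ ≤ m := hj
  have hcard : R.card = 2 * j := by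
    rw [hRdef, Finset.card_image_of_injective, Finset.card_range]
    intro b c hbc
    have h1 : (2 * b + 1) ^ 2 = (2 * c + 1) ^ 2 := hbc
    have h2 := Nat.pow_left_injective (n := 2) (by norm_num) h1
    omega
  have hsub : R ⊆ Finset.Icc 1 m := by
    intro n hn
    rw [hRdef, Finset.mem_image] at hn
    obtain ⟨b, hb1, rfl⟩ := hn
    rw [Finset.mem_range] at hb1
    rw [Finset.mem_Icc]
    exact ⟨Nat.one_le_iff_ne_zero.2 (by positivity), hb b hb1⟩
  have h := count (Finset.Icc 1 m) R hsub a (by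
    intro n hn
    rw [hRdef, Finset.mem_image] at hn
    obtain ⟨b, hb1, rfl⟩ := hn
    exact ha b (hb b (Finset.mem_range.1 hb1))) T hTV hT
  rw [hcard, Nat.card_Icc, Nat.add_sub_cancel, Nat.mul_div_cancel_left _ two_pos] at h
  have h2j : 2 * j ≤ m := by
    have h3 := Finset.card_le_card hsub
    rw [hcard, Nat.card_Icc, Nat.add_sub_cancel] at h3
    exact h3
  have hc := central j
  rw [Nat.centralBinom_eq_two_mul_choose] at hc
  calc T.card ^ 2 * (3 * j + 1) ≤ ((2 * j).choose j * 2 ^ (m - 2 * j)) ^ 2 * (3 * j + 1) :=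
        Nat.mul_le_mul_right _ (Nat.pow_le_pow_left h 2)
    _ = ((2 * j).choose j ^ 2 * (3 * j + 1)) * (2 ^ (m - 2 * j)) ^ 2 := by ring
    _ ≤ 16 ^ j * (2 ^ (m - 2 * j)) ^ 2 := Nat.mul_le_mul_right _ hc
    _ = 4 ^ m := by
        obtain ⟨d, rfl⟩ := Nat.exists_eq_add_of_le h2j
        rw [Nat.add_sub_cancel_left, show (16 : ℕ) = 4 ^ 2 by norm_num, ← pow_mul, ← pow_mul,
          mul_comm d 2, pow_mul 2 2 d, show (2 : ℕ) ^ 2 = 4 by norm_num, ← pow_add]

end Pool.Agent.H209.ES.LO
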