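import Pool.Agent.H209.ES.Shell
import Pool.Agent.H397R2.PP.A

set_option autoImplicit false

/-! Ramanujan's function modulo powers of two, and weighted sums of it. -/

namespace Pool.Agent.H209.ES

open PowerSeries Pool.Agent.H397R2.PP Pool.Agent.V11330.ET
open scoped Classical

/-- the coefficients of the cube of Euler's product -/
theorem coeff_cube_tri (k : ℕ) : coeff (tri k) (pentagonalSeries ℤ ^ 3) = (-1) ^ k * (2 * (k : ℤ) + 1) := by
  have h := Jc_eq (tri k)
  rw [Jc_tri] at h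
  linarith

theorem coeff_cube_not {j : ℕ} (hj : j ∉ Set.range tri) : coeff j (pentagonalSeries ℤ ^ 3) = 0 := by
  have h := Jc_eq j
  rw [Jc_not hj] at h
  linarith

theorem cube_mod (j : ℕ) : ((coeff j (pentagonalSeries ℤ ^ 3) : ℤ) : ZMod 2) =
    if j ∈ Set.range tri then 1 else 0 := by
  split_ifs with h
  · obtain ⟨k, rfl⟩ := h
    rw [coeff_cube_tri, ZMod.intCast_eq_one_iff_odd]
    refine Odd.mul (Odd.pow (by decide)) ⟨k, rfl⟩
  · rw [coeff_cube_not h, Int.cast_zero]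

theorem tau_mod (n : ℕ) (hn : 0 < n) : ((tau n : ℤ) : ZMod 2) =
    if ∃ a : ℕ, n = (2 * a + 1) ^ 2 then 1 else 0 := by
  obtain ⟨m, rfl⟩ : ∃ m, n = m + 1 := ⟨n - 1, by omega⟩
  have h1 : ((tau (m + 1) : ℤ) : ZMod 2) =
      coeff m (((pentagonalSeries ℤ ^ 3).map (Int.castRingHom (ZMod 2))) ^ 8) := by
    rw [tau, Dz, coeff_succ_X_mul, ← map_pow, coeff_map, ← pow_mul]
    norm_num
  rw [h1, pow_eq_expand' 8 3 (by norm_num) (by norm_num), PowerSeries.coeff_expand]
  by_cases h : 8 ∣ m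
  · obtain ⟨b, rfl⟩ := h
    rw [if_pos (Dvd.intro b rfl), Nat.mul_div_cancel_left _ (by norm_num), coeff_map]
    have h2 := cube_mod b
    rw [show (Int.castRingHom (ZMod 2)) (coeff b (pentagonalSeries ℤ ^ 3)) =
      ((coeff b (pentagonalSeries ℤ ^ 3) : ℤ) : ZMod 2) from rfl, h2]
    refine if_congr ?_ rfl rfl
    constructor
    · rintro ⟨k, rfl⟩
      exact ⟨k, tri_eq k⟩
    · rintro ⟨a, ha⟩
      refine ⟨a, ?_⟩
      have := tri_eq a
      omega
  · rw [if_neg h, if_neg]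
    rintro ⟨a, ha⟩
    have := tri_eq a
    apply h
    exact ⟨tri a, by omega⟩

theorem tau_pow_mul (u : ℕ) (hu : Odd u) (k : ℕ) :
    ∃ t : ℤ, tau (2 ^ k * u) = 8 ^ k * t ∧ (t : ZMod 2) = (tau u : ZMod 2) := by
  have h2u : ¬ 2 ∣ u := by
    rw [← even_iff_two_dvd, Nat.not_even_iff_odd]; exact hu
  induction k using Nat.strong_induction_on with
  | _ k ih =>
    rcases k with _ | _ | k
    · exact ⟨tau u, by simp, rfl⟩
    · have h := tau_double u
      rw [if_neg h2u, add_zero] at h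
      refine ⟨-3 * tau u, by rw [zero_add, pow_one, pow_one, h]; ring, ?_⟩
      push_cast
      rw [show (-3 : ZMod 2) = 1 by decide, one_mul]
    · obtain ⟨a, ha, ha2⟩ := ih k (by omega)
      obtain ⟨b, hb, hb2⟩ := ih (k + 1) (by omega)
      have h := tau_double (2 ^ (k + 1) * u)
      rw [if_pos (Dvd.intro (2 ^ k * u) (by ring)),
        show 2 ^ (k + 1) * u / 2 = 2 ^ k * u by
          rw [pow_succ, show 2 ^ k * 2 * u = 2 ^ k * u * 2 by ring, Nat.mul_div_cancel _ two_pos],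
        ha, hb, show 2 * (2 ^ (k + 1) * u) = 2 ^ (k + 1 + 1) * u by ring] at h
      refine ⟨-3 * b - 32 * a, ?_, ?_⟩
      · rw [pow_succ, pow_succ] at *
        linear_combination h
      · push_cast
        rw [show (-3 : ZMod 2) = 1 by decide, show (32 : ZMod 2) = 0 by decide, zero_mul, sub_zero,
          one_mul, hb2]

/-- The sum of `c n τ(n) / n ^ (s + 4)` over a finite set does not vanish, when the number of its
members of the form `2 ^ K * (odd square)`, counted with the multiplicities `c`, is odd, and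
`2 ^ (K + 1)` divides no member. -/
theorem sum_ne_zero (s K : ℕ) (F : Finset ℕ) (c : ℕ → ℤ) (hF : ∀ n ∈ F, 0 < n)
    (hK : ∀ n ∈ F, ¬ 2 ^ (K + 1) ∣ n)
    (ho : Odd (∑ n ∈ F.filter (fun n => ∃ a : ℕ, n = 2 ^ K * (2 * a + 1) ^ 2), c n)) :
    ∑ n ∈ F, (c n : ℝ) * (tau n : ℝ) / (n : ℝ) ^ (s + 4) ≠ 0 := by
  have hd : ∀ n : ℕ, ∃ (k u : ℕ) (t : ℤ), 0 < n → Odd u ∧ n = 2 ^ k * u ∧ tau n = 8 ^ k * t ∧
      (t : ZMod 2) = (tau u : ZMod 2) := by
    intro n
    rcases Nat.eq_zero_or_pos n with rfl | hn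
    · exact ⟨0, 0, 0, fun h => absurd h (lt_irrefl 0)⟩
    · obtain ⟨k, u, hu, hk⟩ := Nat.exists_eq_two_pow_mul_odd hn.ne'
      obtain ⟨t, ht, ht2⟩ := tau_pow_mul u hu k
      exact ⟨k, u, t, fun _ => ⟨hu, hk, by rw [hk]; exact ht, ht2⟩⟩
  choose k u t h using hd
  set A : ℕ → ℤ := fun n => c n * ((∏ i ∈ F.erase n, (u i : ℤ))) ^ (s + 4) *
    2 ^ ((s + 1) * (K - k n)) * t n with hA
  have hkK : ∀ n ∈ F, k n ≤ K := by
    intro n hn
    by_contra hlt
    push Not at hlt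
    apply hK n hn
    obtain ⟨-, h2, -⟩ := h n (hF n hn)
    rw [h2]
    exact (pow_dvd_pow 2 hlt).mul_right _
  have hmain : ∀ n ∈ F, (c n : ℝ) * (tau n : ℝ) / (n : ℝ) ^ (s + 4) *
      (2 ^ ((s + 1) * K) * (∏ i ∈ F, (u i : ℝ)) ^ (s + 4)) = (A n : ℝ) := by
    intro n hn
    obtain ⟨h1, h2, h3, -⟩ := h n (hF n hn)
    have hu0 : (u n : ℝ) ≠ 0 := by
      have : 0 < u n := h1.pos
      positivity
    have e1 : (n : ℝ) = 2 ^ (k n) * (u n : ℝ) := by
      conv_lhs => rw [h2]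
      push_cast
      rfl
    have e2 : (tau n : ℝ) = (2 ^ (k n)) ^ 3 * (t n : ℝ) := by
      rw [h3]
      push_cast
      rw [← pow_mul, mul_comm (k n) 3, pow_mul]
      norm_num
    have e3 : (2 : ℝ) ^ ((s + 1) * K) = 2 ^ ((s + 1) * (K - k n)) * (2 ^ (k n)) ^ (s + 1) := by
      rw [← pow_mul, ← pow_add]
      congr 1
      obtain ⟨d, hd⟩ := Nat.exists_eq_add_of_le (hkK n hn)
      rw [hd, Nat.add_sub_cancel_left]
      ring
    have e4 : (∏ i ∈ F, (u i : ℝ)) = (u n : ℝ) * ∏ i ∈ F.erase n, (u i : ℝ) :=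
      (Finset.mul_prod_erase F (fun i => (u i : ℝ)) hn).symm
    rw [e1, e2, e3, e4, hA]
    push_cast
    generalize (∏ i ∈ F.erase n, (u i : ℝ)) = E
    generalize (2 : ℝ) ^ ((s + 1) * (K - k n)) = G
    have hy : (2 : ℝ) ^ (k n) ≠ 0 := by positivity
    generalize (2 : ℝ) ^ (k n) = y at hy ⊢
    rw [mul_pow, mul_pow]
    field_simp
    ring
  have hpar : ∀ n ∈ F, ((A n : ℤ) : ZMod 2) =
      if ∃ a : ℕ, n = 2 ^ K * (2 * a + 1) ^ 2 then (c n : ZMod 2) else 0 := by
    intro n hn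
    obtain ⟨h1, h2, h3, h4⟩ := h n (hF n hn)
    rcases (hkK n hn).lt_or_eq with hlt | heq
    · rw [if_neg]
      · rw [hA]
        push_cast
        rw [show (2 : ZMod 2) = 0 by decide, zero_pow (by
          have : 0 < K - k n := by omega
          positivity), mul_zero, zero_mul]
      · rintro ⟨a, ha⟩
        rw [h2] at ha
        have h5 : 2 ^ K ∣ 2 ^ (k n) * u n := by rw [ha]; exact Dvd.intro _ rfl
        have h6 : 2 ^ (k n) * 2 ∣ 2 ^ (k n) * u n := by
          rw [← pow_succ]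
          exact (pow_dvd_pow 2 hlt).trans h5
        have h7 := Nat.dvd_of_mul_dvd_mul_left (by positivity) h6
        rw [← even_iff_two_dvd, ← Nat.not_odd_iff_even] at h7
        exact h7 h1
    · have h5 : (A n : ZMod 2) = (c n : ZMod 2) * (tau (u n) : ZMod 2) := by
        rw [hA]
        push_cast
        rw [heq, Nat.sub_self, mul_zero, pow_zero, mul_one, h4]
        have h6 : (∏ i ∈ F.erase n, (u i : ZMod 2)) = 1 := by
          refine Finset.prod_eq_one fun i hi => ?_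
          have h7 := (h i (hF i (Finset.mem_of_mem_erase hi))).1
          exact (ZMod.natCast_eq_one_iff_odd).2 h7
        rw [h6, one_pow, mul_one]
      rw [h5, tau_mod (u n) h1.pos]
      have h8 : (∃ a : ℕ, u n = (2 * a + 1) ^ 2) ↔ ∃ a : ℕ, n = 2 ^ K * (2 * a + 1) ^ 2 := by
        constructor
        · rintro ⟨a, ha⟩
          exact ⟨a, by rw [h2, heq, ha]⟩
        · rintro ⟨a, ha⟩
          refine ⟨a, ?_⟩
          rw [h2, heq] at ha
          exact Nat.eq_of_mul_eq_mul_left (by positivity) ha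
      by_cases h9 : ∃ a : ℕ, n = 2 ^ K * (2 * a + 1) ^ 2
      · rw [if_pos h9, if_pos (h8.2 h9), mul_one]
      · rw [if_neg h9, if_neg (fun h => h9 (h8.1 h)), mul_zero]
  intro hzero
  have h1 : ((∑ n ∈ F, A n : ℤ) : ℝ) = 0 := by
    push_cast
    rw [← Finset.sum_congr rfl hmain, ← Finset.sum_mul, hzero, zero_mul]
  have h2 : (∑ n ∈ F, A n : ℤ) = 0 := by exact_mod_cast h1
  have h3 : ((∑ n ∈ F, A n : ℤ) : ZMod 2) = 1 := by
    push_cast
    rw [Finset.sum_congr rfl hpar, ← Finset.sum_filter]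
    have := (ZMod.intCast_eq_one_iff_odd).2 ho
    push_cast at this
    exact this
  rw [h2] at h3
  simp at h3

end Pool.Agent.H209.ES
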