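import Pool.Agent.H209.ES.LO
import Pool.Agent.H209.ES.Two

set_option autoImplicit false

/-! A better count, with the powers of two. -/

namespace Pool.Agent.H209.ES.LO

open Finset
open scoped Classical

/-- In a family of sets with sum zero which agree outside `U`, the powers of two are determined. -/
theorem key (s K : ℕ) (c : ℕ → ℤ) (hc : ∀ k, Odd (c (2 ^ k))) (V R : Finset ℕ)
    (hR : ∀ n ∈ R, n % 2 = 1) (F F' : Finset ℕ) (hF : F ⊆ V) (hF' : F' ⊆ V)
    (hV : ∀ n ∈ V, 0 < n)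
    (h1 : ∑ n ∈ F, (c n : ℝ) * (tau n : ℝ) / (n : ℝ) ^ (s + 4) = 0)
    (h2 : ∑ n ∈ F', (c n : ℝ) * (tau n : ℝ) / (n : ℝ) ^ (s + 4) = 0)
    (hU : F \ ((Finset.Icc 1 K).image (fun k => 2 ^ k) ∪ R) =
      F' \ ((Finset.Icc 1 K).image (fun k => 2 ^ k) ∪ R)) :
    F ∩ (Finset.Icc 1 K).image (fun k => 2 ^ k) = F' ∩ (Finset.Icc 1 K).image (fun k => 2 ^ k) := by
  set B : Finset ℕ := (Finset.Icc 1 K).image (fun k => 2 ^ k) with hB
  by_contra hne
  set E : Finset ℕ := V.filter (fun n => ¬ (n ∈ F ↔ n ∈ F')) with hE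
  set c' : ℕ → ℤ := fun n => c n * ((if n ∈ F then 1 else 0) - (if n ∈ F' then 1 else 0)) with hc'
  have hEU : ∀ n ∈ E, n ∈ B ∪ R := by
    intro n hn
    rw [hE, mem_filter] at hn
    by_contra hnU
    apply hn.2
    have h3 : n ∈ F \ (B ∪ R) ↔ n ∈ F' \ (B ∪ R) := by rw [hU]
    rw [mem_sdiff, mem_sdiff] at h3
    tauto
  have hsum : ∑ n ∈ E, (c' n : ℝ) * (tau n : ℝ) / (n : ℝ) ^ (s + 4) = 0 := by
    have e1 : ∀ G : Finset ℕ, G ⊆ V → ∑ n ∈ G, (c n : ℝ) * (tau n : ℝ) / (n : ℝ) ^ (s + 4) =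
        ∑ n ∈ V, (if n ∈ G then (c n : ℝ) * (tau n : ℝ) / (n : ℝ) ^ (s + 4) else 0) := by
      intro G hG
      rw [← Finset.sum_filter]
      congr 1
      ext n
      rw [mem_filter]
      exact ⟨fun h => ⟨hG h, h⟩, fun h => h.2⟩
    rw [e1 F hF] at h1
    rw [e1 F' hF'] at h2
    have e2 : ∑ n ∈ V, (c' n : ℝ) * (tau n : ℝ) / (n : ℝ) ^ (s + 4) = 0 := by
      have e3 : ∑ n ∈ V, (c' n : ℝ) * (tau n : ℝ) / (n : ℝ) ^ (s + 4) =
          (∑ n ∈ V, (if n ∈ F then (c n : ℝ) * (tau n : ℝ) / (n : ℝ) ^ (s + 4) else 0)) -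
          ∑ n ∈ V, (if n ∈ F' then (c n : ℝ) * (tau n : ℝ) / (n : ℝ) ^ (s + 4) else 0) := by
        rw [← Finset.sum_sub_distrib]
        refine Finset.sum_congr rfl fun n _ => ?_
        rw [hc']
        by_cases ha : n ∈ F <;> by_cases hb : n ∈ F' <;> simp [ha, hb]
        ring
      rw [e3, h1, h2, sub_zero]
    rw [← e2, hE, Finset.sum_filter]
    refine Finset.sum_congr rfl fun n _ => ?_
    rw [hc']
    by_cases ha : n ∈ F <;> by_cases hb : n ∈ F' <;> simp [ha, hb]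
  set I : Finset ℕ := (Finset.Icc 1 K).filter (fun k => 2 ^ k ∈ E) with hI
  have hIne : I.Nonempty := by
    by_contra hemp
    rw [Finset.not_nonempty_iff_eq_empty] at hemp
    apply hne
    ext n
    rw [mem_inter, mem_inter]
    by_cases hnB : n ∈ B
    · obtain ⟨k, hk, rfl⟩ := mem_image.1 hnB
      have h3 : 2 ^ k ∉ E := by
        intro h4
        have : k ∈ I := by rw [hI, mem_filter]; exact ⟨hk, h4⟩
        rw [hemp] at this
        exact absurd this (Finset.notMem_empty k)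
      have h5 : (2 ^ k ∈ F ↔ 2 ^ k ∈ F') := by
        by_contra h6
        apply h3
        rw [hE, mem_filter]
        refine ⟨?_, h6⟩
        by_cases h7 : 2 ^ k ∈ F
        · exact hF h7
        · by_cases h8 : 2 ^ k ∈ F'
          · exact hF' h8
          · exact absurd (by tauto) h6
      tauto
    · tauto
  set K' : ℕ := I.max' hIne with hK'
  have hK'I : K' ∈ I := Finset.max'_mem I hIne
  rw [hI, mem_filter, Finset.mem_Icc] at hK'I
  obtain ⟨⟨hK1, hK2⟩, hK3⟩ := hK'I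
  have hmax : ∀ k, k ∈ Finset.Icc 1 K → 2 ^ k ∈ E → k ≤ K' := fun k hk1 hk2 =>
    Finset.le_max' I k (by rw [hI, mem_filter]; exact ⟨hk1, hk2⟩)
  refine sum_ne_zero s K' E c' (fun n hn => hV n (Finset.mem_filter.1 hn).1) ?_ ?_ hsum
  · intro n hn hd
    rcases Finset.mem_union.1 (hEU n hn) with h | h
    · obtain ⟨k, hk, rfl⟩ := mem_image.1 h
      have h3 := hmax k hk hn
      have h4 := (Nat.pow_dvd_pow_iff_le_right (by norm_num : 1 < 2)).1 hd
      omega
    · have h3 := hR n h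
      have h4 : 2 ∣ n := (dvd_pow_self 2 (Nat.succ_ne_zero K')).trans hd
      omega
  · have hfil : E.filter (fun n => ∃ a : ℕ, n = 2 ^ K' * (2 * a + 1) ^ 2) = {2 ^ K'} := by
      ext n
      rw [mem_filter, mem_singleton]
      constructor
      · rintro ⟨hn, a, ha⟩
        rcases Finset.mem_union.1 (hEU n hn) with h | h
        · obtain ⟨k, hk, rfl⟩ := mem_image.1 h
          have h3 := hmax k hk hn
          have h4 : 2 ^ k ≤ 2 ^ K' := Nat.pow_le_pow_right (by norm_num) h3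
          have h5 : 2 ^ K' ≤ 2 ^ k := by
            have ha' : (2 : ℕ) ^ k = 2 ^ K' * (2 * a + 1) ^ 2 := ha
            rw [ha']
            exact Nat.le_mul_of_pos_right _ (by positivity)
          exact le_antisymm h4 h5
        · have h3 := hR n h
          have h4 : 2 ∣ n := by
            rw [ha]
            exact (dvd_pow_self 2 (by omega)).mul_right _
          omega
      · rintro rfl
        exact ⟨hK3, 0, by simp⟩
    rw [hfil, Finset.sum_singleton]
    have h3 : ¬ (2 ^ K' ∈ F ↔ 2 ^ K' ∈ F') := (Finset.mem_filter.1 hK3).2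
    simp only [hc']
    refine (hc K').mul ?_
    by_cases ha : 2 ^ K' ∈ F <;> by_cases hb : 2 ^ K' ∈ F'
    · exact absurd (by tauto) h3
    · simp [ha, hb]
    · simp [ha, hb]
    · exact absurd (by tauto) h3

theorem final2 (m j s : ℕ) (hm : 0 < m) (hj : 16 * j ^ 2 ≤ m) (c : ℕ → ℤ)
    (hc : ∀ k, Odd (c (2 ^ k))) (hc2 : ∀ b : ℕ, c ((2 * b + 1) ^ 2) ≠ 0)
    (T : Finset (Finset ℕ)) (hTV : ∀ F ∈ T, F ⊆ Finset.Icc 1 m)
    (hT : ∀ F ∈ T, ∑ n ∈ F, (c n : ℝ) * (tau n : ℝ) / (n : ℝ) ^ (s + 4) = 0) :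
    T.card ^ 2 * ((3 * j + 1) * m ^ 2) ≤ 4 ^ (m + 1) := by
  set R : Finset ℕ := (Finset.range (2 * j)).image (fun b => (2 * b + 1) ^ 2) with hRdef
  set K : ℕ := Nat.log 2 m with hKdef
  set B : Finset ℕ := (Finset.Icc 1 K).image (fun k => 2 ^ k) with hBdef
  set a : ℕ → ℝ := fun n => (c n : ℝ) * (tau n : ℝ) / (n : ℝ) ^ (s + 4) with ha
  have hb : ∀ b < 2 * j, (2 * b + 1) ^ 2 ≤ m := by
    intro b hb
    have h1 : 2 * b + 1 ≤ 4 * j := by omega
    calc (2 * b + 1) ^ 2 ≤ (4 * j) ^ 2 := Nat.pow_le_pow_left h1 2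
      _ = 16 * j ^ 2 := by ring
      _ ≤ m := hj
  have hcard : R.card = 2 * j := by
    rw [hRdef, Finset.card_image_of_injective, Finset.card_range]
    intro b c hbc
    have h1 : (2 * b + 1) ^ 2 = (2 * c + 1) ^ 2 := hbc
    have h2 := Nat.pow_left_injective (n := 2) (by norm_num) h1
    omega
  have hRodd : ∀ n ∈ R, n % 2 = 1 := by
    intro n hn
    rw [hRdef, mem_image] at hn
    obtain ⟨b, -, rfl⟩ := hn
    exact Nat.odd_iff.1 (Odd.pow ⟨b, rfl⟩)
  have hBcard : B.card = K := by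
    rw [hBdef, Finset.card_image_of_injective _ (Nat.pow_right_injective (le_refl 2)), Nat.card_Icc]
    omega
  have hBeven : ∀ n ∈ B, n % 2 = 0 := by
    intro n hn
    rw [hBdef, mem_image] at hn
    obtain ⟨k, hk, rfl⟩ := hn
    rw [Finset.mem_Icc] at hk
    exact Nat.mod_eq_zero_of_dvd (dvd_pow_self 2 (by omega))
  have hdis : Disjoint B R := by
    rw [Finset.disjoint_left]
    intro n h1 h2
    have := hBeven n h1
    have := hRodd n h2
    omega
  have hsub : B ∪ R ⊆ Finset.Icc 1 m := by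
    intro n hn
    rcases Finset.mem_union.1 hn with h | h
    · rw [hBdef, mem_image] at h
      obtain ⟨k, hk, rfl⟩ := h
      rw [Finset.mem_Icc] at hk ⊢
      exact ⟨Nat.one_le_two_pow, (Nat.pow_le_pow_right (by norm_num) hk.2).trans
        (Nat.pow_log_le_self 2 hm.ne')⟩
    · rw [hRdef, mem_image] at h
      obtain ⟨b, hb1, rfl⟩ := h
      rw [Finset.mem_Icc]
      exact ⟨Nat.one_le_iff_ne_zero.2 (by positivity), hb b (Finset.mem_range.1 hb1)⟩
  have haR : ∀ n ∈ R, a n ≠ 0 := by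
    intro n hn
    rw [hRdef, mem_image] at hn
    obtain ⟨b, -, rfl⟩ := hn
    have h1 : (((2 * b + 1) ^ 2 : ℕ) : ℝ) ≠ 0 := by positivity
    have h2 : tau ((2 * b + 1) ^ 2) ≠ 0 := by
      intro h
      have h3 := tau_mod ((2 * b + 1) ^ 2) (by positivity)
      rw [h, if_pos ⟨b, rfl⟩] at h3
      simp at h3
    have h3 : ((tau ((2 * b + 1) ^ 2) : ℤ) : ℝ) ≠ 0 := by exact_mod_cast h2
    have h4 : ((c ((2 * b + 1) ^ 2) : ℤ) : ℝ) ≠ 0 := by exact_mod_cast hc2 b
    exact div_ne_zero (mul_ne_zero h4 h3) (pow_ne_zero _ h1)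
  have hkey : ∀ F ∈ T, ∀ F' ∈ T, F \ (B ∪ R) = F' \ (B ∪ R) → F ∩ B = F' ∩ B :=
    fun F hF F' hF' h => key s K c hc (Finset.Icc 1 m) R hRodd F F' (hTV F hF) (hTV F' hF')
      (fun n hn => by rw [Finset.mem_Icc] at hn; omega) (hT F hF) (hT F' hF') h
  have hsplit : ∀ F : Finset ℕ, F = F \ (B ∪ R) ∪ (F ∩ B ∪ F ∩ R) := by
    intro F
    rw [← Finset.inter_union_distrib_left, Finset.sdiff_union_inter]
  have h1 := Finset.card_le_mul_card_image (f := fun F : Finset ℕ => F \ (B ∪ R)) T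
    ((2 * j).choose (2 * j / 2)) (by
      intro G hG
      obtain ⟨F₀, hF₀, hG₀⟩ := mem_image.1 hG
      have hinj : Set.InjOn (fun F : Finset ℕ => F ∩ R) ((T.filter (fun F => F \ (B ∪ R) = G) :
          Finset (Finset ℕ)) : Set (Finset ℕ)) := by
        intro F hF F' hF' h
        simp only [Finset.coe_filter, Set.mem_ofPred_eq] at hF hF'
        have h3 : F ∩ R = F' ∩ R := h
        have h4 := hkey F hF.1 F' hF'.1 (by rw [hF.2, hF'.2])
        rw [hsplit F, hsplit F', hF.2, hF'.2, h3, h4]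
      rw [← Finset.card_image_of_injOn hinj, ← hcard]
      refine lo_real R a haR (-∑ n ∈ G, a n - ∑ n ∈ F₀ ∩ B, a n) _ ?_ ?_
      · intro H hH
        obtain ⟨F, hF, rfl⟩ := Finset.mem_image.1 hH
        exact Finset.inter_subset_right
      · intro H hH
        obtain ⟨F, hF, rfl⟩ := Finset.mem_image.1 hH
        rw [Finset.mem_filter] at hF
        have h4 : ∑ n ∈ F \ (B ∪ R), a n + (∑ n ∈ F ∩ B, a n + ∑ n ∈ F ∩ R, a n) =
            ∑ n ∈ F, a n := by
          rw [← Finset.sum_union (hdis.mono Finset.inter_subset_right Finset.inter_subset_right),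
            ← Finset.inter_union_distrib_left,
            ← Finset.sum_union (Finset.disjoint_sdiff_inter F (B ∪ R)), Finset.sdiff_union_inter]
        rw [hkey F hF.1 F₀ hF₀ (by rw [hF.2]; exact hG₀.symm), hF.2] at h4
        have h5 : ∑ n ∈ F, a n = 0 := hT F hF.1
        rw [h5] at h4
        linarith)
  have h2 : (T.image (fun F : Finset ℕ => F \ (B ∪ R))).card ≤ 2 ^ (m - (K + 2 * j)) := by
    have h3 : T.image (fun F : Finset ℕ => F \ (B ∪ R)) ⊆ (Finset.Icc 1 m \ (B ∪ R)).powerset := by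
      intro G hG
      obtain ⟨F, hF, rfl⟩ := Finset.mem_image.1 hG
      rw [Finset.mem_powerset]
      exact Finset.sdiff_subset_sdiff (hTV F hF) (le_refl _)
    refine (Finset.card_le_card h3).trans ?_
    rw [Finset.card_powerset, Finset.card_sdiff_of_subset hsub, Finset.card_union_of_disjoint hdis,
      hBcard, hcard, Nat.card_Icc, Nat.add_sub_cancel]
  have hle : K + 2 * j ≤ m := by
    have h3 := Finset.card_le_card hsub
    rwa [Finset.card_union_of_disjoint hdis, hBcard, hcard, Nat.card_Icc, Nat.add_sub_cancel] at h3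
  have h := h1.trans (Nat.mul_le_mul_left _ h2)
  rw [Nat.mul_div_cancel_left _ two_pos] at h
  have hcen := central j
  rw [Nat.centralBinom_eq_two_mul_choose] at hcen
  have hmK : m ^ 2 ≤ 4 ^ (K + 1) := by
    have h3 : m < 2 ^ (K + 1) := Nat.lt_pow_succ_log_self (by norm_num) m
    calc m ^ 2 ≤ (2 ^ (K + 1)) ^ 2 := Nat.pow_le_pow_left h3.le 2
      _ = 4 ^ (K + 1) := by rw [← pow_mul, mul_comm, pow_mul]; norm_num
  obtain ⟨d, hd⟩ := Nat.exists_eq_add_of_le hle
  have hd2 : m - (K + 2 * j) = d := by omega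
  rw [hd2] at h
  calc T.card ^ 2 * ((3 * j + 1) * m ^ 2) ≤ ((2 * j).choose j * 2 ^ d) ^ 2 * ((3 * j + 1) * m ^ 2) :=
        Nat.mul_le_mul_right _ (Nat.pow_le_pow_left h 2)
    _ = ((2 * j).choose j ^ 2 * (3 * j + 1)) * ((2 ^ d) ^ 2 * m ^ 2) := by ring
    _ ≤ 16 ^ j * ((2 ^ d) ^ 2 * 4 ^ (K + 1)) :=
        Nat.mul_le_mul hcen (Nat.mul_le_mul_left _ hmK)
    _ = 4 ^ (m + 1) := by
        rw [show (2 ^ d) ^ 2 = 4 ^ d by rw [← pow_mul, mul_comm, pow_mul]; norm_num,
          show (16 : ℕ) ^ j = 4 ^ (2 * j) by rw [pow_mul]; norm_num, ← pow_add, ← pow_add]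
        congr 1
        omega

end Pool.Agent.H209.ES.LO
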