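import Pool.Agent.H209.ES.Jac

set_option autoImplicit false

/-! The sum of `x₁ ⋯ x₈` over a shell of `E₈` is `τ(m) / 2`. -/

namespace Pool.Agent.H209.ES

open PowerSeries

/-- the shell of norm `2 m` of the lattice `E₈`, in the coordinates multiplied by `2` -/
noncomputable def shell (m : ℕ) : Finset (Fin 8 → ℤ) :=
  (Fintype.piFinset (fun _ : Fin 8 => Finset.Icc (-(8 * (m : ℤ))) (8 * (m : ℤ)))).filter
    (fun v : Fin 8 → ℤ => (∀ i j, v i % 2 = v j % 2) ∧ (∑ i, v i) % 4 = 0 ∧
      ∑ i, v i ^ 2 = 8 * (m : ℤ))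

theorem mem_shell (m : ℕ) (v : Fin 8 → ℤ) : v ∈ shell m ↔
    (∀ i j, v i % 2 = v j % 2) ∧ (∑ i, v i) % 4 = 0 ∧ ∑ i, v i ^ 2 = 8 * (m : ℤ) := by
  unfold shell
  rw [Finset.mem_filter, Fintype.mem_piFinset]
  constructor
  · exact fun h => h.2
  · intro h
    refine ⟨fun i => ?_, h⟩
    have h1 : v i ^ 2 ≤ 8 * (m : ℤ) := by
      rw [← h.2.2]
      exact Finset.single_le_sum (f := fun j => v j ^ 2) (fun j _ => sq_nonneg _)
        (Finset.mem_univ i)
    rw [Finset.mem_Icc]
    constructor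
    · by_contra hlt
      push Not at hlt
      nlinarith
    · by_contra hlt
      push Not at hlt
      nlinarith

/-- vectors with odd coordinates -/
noncomputable def odds (m : ℕ) : Finset (Fin 8 → ℤ) :=
  (Fintype.piFinset (fun _ : Fin 8 => Finset.Icc (-(8 * (m : ℤ))) (8 * (m : ℤ)))).filter
    (fun v : Fin 8 → ℤ => (∀ i, v i % 2 = 1) ∧ ∑ i, v i ^ 2 = 8 * (m : ℤ))

theorem mem_odds (m : ℕ) (v : Fin 8 → ℤ) : v ∈ odds m ↔
    (∀ i, v i % 2 = 1) ∧ ∑ i, v i ^ 2 = 8 * (m : ℤ) := by
  unfold odds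
  rw [Finset.mem_filter, Fintype.mem_piFinset]
  constructor
  · exact fun h => h.2
  · intro h
    refine ⟨fun i => ?_, h⟩
    have h1 : v i ^ 2 ≤ 8 * (m : ℤ) := by
      rw [← h.2]
      exact Finset.single_le_sum (f := fun j => v j ^ 2) (fun j _ => sq_nonneg _)
        (Finset.mem_univ i)
    rw [Finset.mem_Icc]
    constructor
    · by_contra hlt
      push Not at hlt
      nlinarith
    · by_contra hlt
      push Not at hlt
      nlinarith

theorem odd_sq (v : ℤ) (h : v % 2 = 1) : ∃ a : ℕ, v ^ 2 = 8 * (a : ℤ) + 1 := by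
  obtain ⟨k, hk⟩ : ∃ k, v = 2 * k + 1 := ⟨v / 2, by omega⟩
  obtain ⟨b, hb⟩ := Int.even_mul_succ_self k
  have h1 : v ^ 2 = 8 * b + 1 := by rw [hk]; linear_combination 4 * hb
  have h2 : 0 ≤ b := by nlinarith [sq_nonneg v]
  exact ⟨b.toNat, by rw [Int.toNat_of_nonneg h2]; exact h1⟩

/-- the exponents -/
noncomputable def g (v : Fin 8 → ℤ) : Fin 8 →₀ ℕ :=
  Finsupp.equivFunOnFinite.symm (fun i => ((v i ^ 2 - 1) / 8).toNat)

theorem g_eq (v : Fin 8 → ℤ) (i : Fin 8) (a : ℕ) (h : v i ^ 2 = 8 * (a : ℤ) + 1) : g v i = a := by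
  unfold g
  simp only [Finsupp.equivFunOnFinite_symm_apply_apply]
  rw [h]
  omega

theorem sum_odds (n : ℕ) : ∑ v ∈ odds (n + 1), ∏ i, w (v i) = 256 * tau (n + 1) := by
  classical
  rw [← coeff_Jc]
  have h1 : (mk Jc : ℤ⟦X⟧) ^ 8 = ∏ _i : Fin 8, mk Jc := by
    rw [Finset.prod_const, Finset.card_univ, Fintype.card_fin]
  rw [h1, coeff_prod]
  simp only [coeff_mk]
  have h2 : ∀ l : Fin 8 →₀ ℕ, ∏ i : Fin 8, Jc (l i) =
      ∑ v ∈ Fintype.piFinset (fun i => roots (l i)), ∏ i, w (v i) := by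
    intro l
    unfold Jc
    rw [Finset.prod_univ_sum]
  simp only [h2]
  rw [← Finset.sum_fiberwise_of_maps_to (s := odds (n + 1))
    (t := Finset.finsuppAntidiag Finset.univ n) (g := g)]
  · refine Finset.sum_congr rfl fun l hl => ?_
    rw [Finset.mem_finsuppAntidiag] at hl
    have hl1 : ∑ i, (l i : ℤ) = n := by
      have := hl.1
      rw [← this]
      push_cast
      rfl
    refine Finset.sum_congr ?_ fun _ _ => rfl
    ext v
    rw [Finset.mem_filter, mem_odds, Fintype.mem_piFinset]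
    simp only [mem_roots]
    constructor
    · rintro ⟨⟨ho, -⟩, hg⟩ i
      obtain ⟨a, ha⟩ := odd_sq (v i) (ho i)
      rw [← hg, g_eq v i a ha]
      exact ha
    · intro h
      refine ⟨⟨fun i => ?_, ?_⟩, ?_⟩
      · rcases Int.emod_two_eq_zero_or_one (v i) with h3 | h3
        · exfalso
          obtain ⟨a, ha⟩ : (2 : ℤ) ∣ v i := Int.dvd_of_emod_eq_zero h3
          have := h i
          rw [ha] at this
          ring_nf at this
          omega
        · exact h3
      · simp only [h]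
        rw [Finset.sum_add_distrib, ← Finset.mul_sum, hl1]
        simp
        ring
      · ext i
        exact g_eq v i (l i) (h i)
  · intro v hv
    rw [mem_odds] at hv
    rw [Finset.mem_finsuppAntidiag]
    refine ⟨?_, Finset.subset_univ _⟩
    choose a ha using fun i => odd_sq (v i) (hv.1 i)
    have h3 : ∀ i, g v i = a i := fun i => g_eq v i (a i) (ha i)
    have h4 := hv.2
    simp only [ha] at h4
    rw [Finset.sum_add_distrib, ← Finset.mul_sum] at h4
    simp only [h3]
    have h5 : ((∑ i, a i : ℕ) : ℤ) = n := by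
      push_cast
      simp at h4
      linarith
    exact_mod_cast h5

theorem sign_prod (e : Fin 8 → Bool) : (∏ i, (if e i then (1 : ℤ) else -1)) =
    if (∑ i, (if e i then (1 : ℤ) else -1)) % 4 = 0 then 1 else -1 := by
  revert e
  decide +kernel

theorem prod_w (v : Fin 8 → ℤ) (h : ∀ i, v i % 2 = 1) :
    ∏ i, w (v i) = if (∑ i, v i) % 4 = 0 then ∏ i, v i else -∏ i, v i := by
  have h1 : ∀ i, w (v i) = v i * (if decide (v i % 4 = 1) then (1 : ℤ) else -1) := by
    intro i
    unfold w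
    by_cases h : v i % 4 = 1
    · simp [h]
    · simp [h]
  simp only [h1]
  rw [Finset.prod_mul_distrib, sign_prod]
  have h2 : (∑ i, v i) % 4 = (∑ i, (if decide (v i % 4 = 1) then (1 : ℤ) else -1)) % 4 := by
    rw [Finset.sum_int_mod, Finset.sum_int_mod _ _ (fun i => if decide (v i % 4 = 1) then (1 : ℤ) else -1)]
    congr 1
    refine Finset.sum_congr rfl fun i _ => ?_
    have h3 := h i
    by_cases h4 : v i % 4 = 1
    · simp [h4]
    · have h5 : v i % 4 = 3 := by omega
      simp [h5]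
  rw [← h2]
  split_ifs <;> ring

/-- change of the sign of the first coordinate -/
def flip (v : Fin 8 → ℤ) : Fin 8 → ℤ := Function.update v 0 (-v 0)

theorem flip_flip (v : Fin 8 → ℤ) : flip (flip v) = v := by
  unfold flip
  simp

theorem flip_prod (v : Fin 8 → ℤ) : ∏ i, flip v i = -∏ i, v i := by
  unfold flip
  simp only [Fin.prod_univ_eight, Function.update_self, ne_eq, Function.update_of_ne]
  simp [Fin.prod_univ_eight, Function.update]

theorem flip_sum (v : Fin 8 → ℤ) : ∑ i, flip v i = ∑ i, v i - 2 * v 0 := by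
  unfold flip
  simp [Fin.sum_univ_eight, Function.update]
  ring

theorem flip_sq (v : Fin 8 → ℤ) : ∑ i, flip v i ^ 2 = ∑ i, v i ^ 2 := by
  unfold flip
  simp [Fin.sum_univ_eight, Function.update]

theorem flip_mod (v : Fin 8 → ℤ) (i : Fin 8) : flip v i % 2 = v i % 2 := by
  unfold flip
  by_cases h : i = 0
  · subst h
    simp only [Function.update_self]
    omega
  · rw [Function.update_of_ne h]

theorem sum_shell (m : ℕ) (hm : 0 < m) : ∑ v ∈ shell m, ∏ i, v i = 128 * tau m := by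
  classical
  obtain ⟨n, rfl⟩ : ∃ n, m = n + 1 := ⟨m - 1, by omega⟩
  have h0 := sum_odds n
  have e1 : ∑ v ∈ odds (n + 1), ∏ i, w (v i) =
      ∑ v ∈ (odds (n + 1)).filter (fun v => (∑ i, v i) % 4 = 0), ∏ i, v i +
      ∑ v ∈ (odds (n + 1)).filter (fun v => ¬ (∑ i, v i) % 4 = 0), -∏ i, v i := by
    rw [← Finset.sum_filter_add_sum_filter_not (odds (n + 1)) (fun v => (∑ i, v i) % 4 = 0)]
    congr 1
    · refine Finset.sum_congr rfl fun v hv => ?_
      rw [Finset.mem_filter, mem_odds] at hv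
      rw [prod_w v hv.1.1, if_pos hv.2]
    · refine Finset.sum_congr rfl fun v hv => ?_
      rw [Finset.mem_filter, mem_odds] at hv
      rw [prod_w v hv.1.1, if_neg hv.2]
  have e2 : ∑ v ∈ (odds (n + 1)).filter (fun v => ¬ (∑ i, v i) % 4 = 0), -∏ i, v i =
      ∑ v ∈ (odds (n + 1)).filter (fun v => (∑ i, v i) % 4 = 0), ∏ i, v i := by
    refine Finset.sum_nbij' flip flip ?_ ?_ (fun v _ => flip_flip v) (fun v _ => flip_flip v) ?_
    · intro v hv
      rw [Finset.mem_filter, mem_odds] at hv ⊢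
      refine ⟨⟨fun i => by rw [flip_mod]; exact hv.1.1 i, by rw [flip_sq]; exact hv.1.2⟩, ?_⟩
      rw [flip_sum]
      have h1 := hv.2
      have h2 : (∑ i, v i) % 2 = 0 := by
        rw [Finset.sum_int_mod]
        simp [hv.1.1]
      have h3 := hv.1.1 0
      omega
    · intro v hv
      rw [Finset.mem_filter, mem_odds] at hv ⊢
      refine ⟨⟨fun i => by rw [flip_mod]; exact hv.1.1 i, by rw [flip_sq]; exact hv.1.2⟩, ?_⟩
      rw [flip_sum]
      have h1 := hv.2
      have h3 := hv.1.1 0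
      omega
    · intro v _
      rw [flip_prod]
  have e3 : ∑ v ∈ shell (n + 1), ∏ i, v i =
      ∑ v ∈ (odds (n + 1)).filter (fun v => (∑ i, v i) % 4 = 0), ∏ i, v i := by
    rw [← Finset.sum_filter_add_sum_filter_not (shell (n + 1)) (fun v => v 0 % 2 = 1)]
    have e4 : ∑ v ∈ (shell (n + 1)).filter (fun v => ¬ v 0 % 2 = 1), ∏ i, v i = 0 := by
      have e5 : ∑ v ∈ (shell (n + 1)).filter (fun v => ¬ v 0 % 2 = 1), ∏ i, v i =
          ∑ v ∈ (shell (n + 1)).filter (fun v => ¬ v 0 % 2 = 1), -∏ i, v i := by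
        refine Finset.sum_nbij' flip flip ?_ ?_ (fun v _ => flip_flip v) (fun v _ => flip_flip v) ?_
        · intro v hv
          rw [Finset.mem_filter, mem_shell] at hv ⊢
          refine ⟨⟨fun i j => by rw [flip_mod, flip_mod]; exact hv.1.1 i j, ?_,
            by rw [flip_sq]; exact hv.1.2.2⟩, by rw [flip_mod]; exact hv.2⟩
          rw [flip_sum]
          have h1 := hv.1.2.1
          have h2 := hv.2
          omega
        · intro v hv
          rw [Finset.mem_filter, mem_shell] at hv ⊢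
          refine ⟨⟨fun i j => by rw [flip_mod, flip_mod]; exact hv.1.1 i j, ?_,
            by rw [flip_sq]; exact hv.1.2.2⟩, by rw [flip_mod]; exact hv.2⟩
          rw [flip_sum]
          have h1 := hv.1.2.1
          have h2 := hv.2
          omega
        · intro v _
          rw [flip_prod, neg_neg]
      rw [Finset.sum_neg_distrib] at e5
      linarith
    rw [e4, add_zero]
    refine Finset.sum_congr ?_ fun _ _ => rfl
    ext v
    rw [Finset.mem_filter, Finset.mem_filter, mem_shell, mem_odds]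
    constructor
    · rintro ⟨⟨h1, h2, h3⟩, h4⟩
      exact ⟨⟨fun i => (h1 i 0).trans h4, h3⟩, h2⟩
    · rintro ⟨⟨h1, h2⟩, h3⟩
      exact ⟨⟨fun i j => by rw [h1 i, h1 j], h3, h2⟩, h1 0⟩
  rw [e1, e2, ← e3] at h0
  linarith

end Pool.Agent.H209.ES
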